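import Pool.Agent.Helper73.HU.St

/-! # HU, module EB: definable unbounded subsets of regular cardinals of HOD -/

namespace Pool.Agent.Helper31.HU.EB

open Ordinal Cardinal ZFSet Order Pool.Agent.Helper73.HODC Pool.Agent.Helper73.HE
open Pool.Agent.Helper73.HM Pool.Agent.Helper73.HU

/-- EB: a definable unbounded subset of a regular cardinal of HOD has order type `τ` -/
theorem eb : StEB := by
  intro τ Γ hτ hΓ hun i
  induction i using WellFoundedLT.induction with
  | ind i ih =>
    intro hi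
    have hch : ∀ x, ∃ b, x < i → b < τ ∧ Enum Γ x b := by
      intro x
      by_cases hx : x < i
      · obtain ⟨b, hb, hb'⟩ := ih x hx (hx.trans hi)
        exact ⟨b, fun _ => ⟨hb, hb'⟩⟩
      · exact ⟨0, fun h => absurd h hx⟩
    choose f hf using hch
    by_cases hbd : ∃ β < τ, ∀ x < i, f x ≤ β
    · obtain ⟨β, hβ, hfβ⟩ := hbd
      obtain ⟨b, hb, hβb, hbc⟩ := hun β hβ
      obtain ⟨b', hb', h'⟩ := enum_step (g := f) (fun x hx => (hf x hx).2) hb
        (fun x hx => (hfβ x hx).trans_lt hβb)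
      exact ⟨b', hb'.trans_lt hbc, h'⟩
    · exfalso
      push Not at hbd
      apply hτ.2
      refine ⟨hτ.1, i, hi, f, fun ξ hξ => (hf ξ hξ).1, ?_, HOD_graph _ _ ?_⟩
      · intro β hβ
        obtain ⟨ξ, hξ, h⟩ := hbd β hβ
        exact ⟨ξ, hξ, h.le⟩
      · rw [odRel_iff_DP]
        have hΓ' : DP (fun v => (v 0).rank ∈ Γ) := hΓ
        refine ((DP.rank_lt_ord 0 i).and (DP.enum hΓ')).congr ?_
        intro v
        constructor
        · rintro ⟨h3, h4⟩
          exact ⟨h3, h4 ▸ (hf _ h3).2⟩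
        · rintro ⟨h3, h4⟩
          exact ⟨h3, enum_unique h4 (hf _ h3).2⟩

end Pool.Agent.Helper31.HU.EB
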